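import Pool.Graph.R_seed8.H88R3.MM.Circ

set_option autoImplicit false

/-!
# Masses of arithmetic circuits before cancellation

`Circuit`, `Circuit.poly`, `Circuit.IsNonscalar`, `Circuit.nonscalarCount` are defined in
`Pool.Agent.H522R2.Circuit`; `Vars m`, `entry F m i j`, `linA`, `linB`, `inp` in
`Pool.Agent.H88R3.MM.Circ`.
-/

namespace Pool.Agent.Helper85.Mass

open Finset Pool.Agent.H88R3.MM Pool.Agent.H522R2 Pool.Agent.H522R2.Circuit

/-- The circuit obtained by replacing each constant `c` by the real number `v c`. The polynomial
which it computes at a node is the sum of the absolute values of all the terms which the full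
expansion of the node has before any cancellation. -/
abbrev absolute {F V : Type*} [Field F] (v : AbsoluteValue F ℝ) (C : Circuit F V) :
    Circuit ℝ V where
  nodes := C.nodes
  gate k := match C.gate k with
    | .var x => .var x
    | .const c => .const (v c)
    | .add i j => .add i j
    | .mul i j => .mul i j

/-- The derivative at the origin of the value of the node `k` with respect to the value of the
node `t`. -/
noncomputable def transfer {F V : Type*} [Field F] (C : Circuit F V) (t k : Fin C.nodes) : F :=
  (if k = t then 1 else 0) + match C.gate k with
  | .var _ => 0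
  | .const _ => 0
  | .add i j => transfer C t (C.up k i) + transfer C t (C.up k j)
  | .mul i j => (C.poly (C.up k i)).coeff 0 * transfer C t (C.up k j) +
      (C.poly (C.up k j)).coeff 0 * transfer C t (C.up k i)
termination_by (k : ℕ)
decreasing_by all_goals simp [up]

section

variable {F : Type*} [Field F] {m : ℕ}

/-- The sum of the absolute values of the entries of a matrix. -/
noncomputable def l1 (v : AbsoluteValue F ℝ) (M : Matrix (Fin m) (Fin m) F) : ℝ :=
  ∑ i, ∑ j, v (M i j)

open Classical in
/-- The mass of the products: the sum over the nonscalar multiplications, with inputs `l` and `r`,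
of `(‖l_A‖ ‖r_B‖ + ‖r_A‖ ‖l_B‖) ‖c‖`, where `l_A`, `l_B` are the linear parts of `l` in the entries
of the two matrices, `c` is the matrix of the coefficients with which the product enters the
outputs, and `‖ ‖` is the sum of the absolute values of the entries. -/
noncomputable def productMass (v : AbsoluteValue F ℝ) (C : Circuit F (Vars m))
    (o : Fin m → Fin m → Fin C.nodes) : ℝ :=
  ∑ t : {t : Fin C.nodes // C.IsNonscalar t},
    (l1 v (linA (C.poly (inp C t.1).1)) * l1 v (linB (C.poly (inp C t.1).2)) +
      l1 v (linA (C.poly (inp C t.1).2)) * l1 v (linB (C.poly (inp C t.1).1))) *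
    l1 v (Matrix.of fun i k => transfer C t.1 (o i k))

/-- The mass of a node: the sum of the absolute values of all the terms `c · a_x · b_y` in the full
expansion of the node, before any cancellation. -/
noncomputable def mass (v : AbsoluteValue F ℝ) (C : Circuit F (Vars m)) (k : Fin C.nodes) : ℝ :=
  ∑ x, ∑ y, ((absolute v C).poly k).coeff
    (Finsupp.single (Sum.inl x) 1 + Finsupp.single (Sum.inr y) 1)

end

end Pool.Agent.Helper85.Mass
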