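import Mathlib

set_option autoImplicit false

/-!
# A weighted discrete Loomis-Whitney inequality and the covering bound
-/

namespace Pool.Agent.Helper85.Mass

open Finset

/-- Cauchy-Schwarz for sums of square roots. -/
theorem sum_sqrt_mul_le {ι : Type*} (s : Finset ι) (f g : ι → ℝ) (hf : ∀ i, 0 ≤ f i)
    (hg : ∀ i, 0 ≤ g i) :
    ∑ i ∈ s, √(f i * g i) ≤ √((∑ i ∈ s, f i) * ∑ i ∈ s, g i) := by
  apply Real.le_sqrt_of_sq_le
  have h := Finset.sum_mul_sq_le_sq_mul_sq s (fun i => √(f i)) (fun i => √(g i))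
  simp only [Real.sq_sqrt (hf _), Real.sq_sqrt (hg _)] at h
  simpa only [Real.sqrt_mul (hf _)] using h

/-- The discrete Loomis-Whitney inequality in weighted form. -/
theorem loomis {I J K : Type*} [Fintype I] [Fintype J] [Fintype K]
    (f : I → J → ℝ) (g : J → K → ℝ) (h : I → K → ℝ)
    (hf : ∀ i j, 0 ≤ f i j) (hg : ∀ j k, 0 ≤ g j k) (hh : ∀ i k, 0 ≤ h i k) :
    ∑ i, ∑ j, ∑ k, √(f i j * g j k * h i k) ≤
      √((∑ i, ∑ j, f i j) * (∑ j, ∑ k, g j k) * (∑ i, ∑ k, h i k)) := by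
  have h1 : ∀ i j, ∑ k, √(f i j * g j k * h i k) ≤
      √(f i j * ((∑ k, g j k) * ∑ k, h i k)) := by
    intro i j
    have : ∀ k, √(f i j * g j k * h i k) = √(f i j) * √(g j k * h i k) := by
      intro k
      rw [mul_assoc, Real.sqrt_mul (hf i j)]
    simp only [this, ← Finset.mul_sum]
    rw [Real.sqrt_mul (hf i j)]
    exact mul_le_mul_of_nonneg_left (sum_sqrt_mul_le _ _ _ (hg j) (hh i)) (Real.sqrt_nonneg _)
  have hG : ∀ j, 0 ≤ ∑ k, g j k := fun j => Finset.sum_nonneg fun k _ => hg j k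
  have hH : ∀ i, 0 ≤ ∑ k, h i k := fun i => Finset.sum_nonneg fun k _ => hh i k
  calc ∑ i, ∑ j, ∑ k, √(f i j * g j k * h i k)
      ≤ ∑ i, ∑ j, √(f i j * ((∑ k, g j k) * ∑ k, h i k)) :=
        Finset.sum_le_sum fun i _ => Finset.sum_le_sum fun j _ => h1 i j
    _ = ∑ x : I × J, √(f x.1 x.2 * ((∑ k, g x.2 k) * ∑ k, h x.1 k)) := by
        rw [Fintype.sum_prod_type]
    _ ≤ √((∑ x : I × J, f x.1 x.2) * ∑ x : I × J, ((∑ k, g x.2 k) * ∑ k, h x.1 k)) :=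
        sum_sqrt_mul_le _ _ _ (fun x => hf _ _) (fun x => mul_nonneg (hG _) (hH _))
    _ = √((∑ i, ∑ j, f i j) * (∑ j, ∑ k, g j k) * (∑ i, ∑ k, h i k)) := by
        congr 1
        rw [Fintype.sum_prod_type, Fintype.sum_prod_type, mul_assoc]
        congr 1
        rw [mul_comm (∑ j, ∑ k, g j k), Finset.sum_mul]
        refine Finset.sum_congr rfl fun i _ => ?_
        rw [Finset.mul_sum]
        exact Finset.sum_congr rfl fun j _ => mul_comm _ _

/-- A sum of nonnegative numbers which is at least one has sum of square roots at least one. -/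
theorem one_le_sum_sqrt {ι : Type*} (s : Finset ι) (x : ι → ℝ) (hx : ∀ i, 0 ≤ x i)
    (h : 1 ≤ ∑ i ∈ s, x i) : 1 ≤ ∑ i ∈ s, √(x i) := by
  have h0 : 0 ≤ ∑ i ∈ s, √(x i) := Finset.sum_nonneg fun i _ => Real.sqrt_nonneg _
  have h1 : ∑ i ∈ s, x i ≤ (∑ i ∈ s, √(x i)) ^ 2 := by
    have := Finset.sum_sq_le_sq_sum_of_nonneg (s := s) (f := fun i => √(x i))
      (fun i _ => Real.sqrt_nonneg _)
    simpa only [Real.sq_sqrt (hx _)] using this
  nlinarith

/-- The covering bound: if the triples of `S` are covered with total weight at least one by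
`τ` products of nonnegative weights, then `|S|² ≤ |τ| · (total mass)`. -/
theorem cover {I J K τ : Type*} [Fintype I] [Fintype J] [Fintype K] [Fintype τ]
    (S : Finset (I × J × K)) (f : τ → I → J → ℝ) (g : τ → J → K → ℝ) (h : τ → I → K → ℝ)
    (hf : ∀ t i j, 0 ≤ f t i j) (hg : ∀ t j k, 0 ≤ g t j k) (hh : ∀ t i k, 0 ≤ h t i k)
    (hS : ∀ x ∈ S, 1 ≤ ∑ t, f t x.1 x.2.1 * g t x.2.1 x.2.2 * h t x.1 x.2.2) :
    ((S.card : ℝ)) ^ 2 ≤ Fintype.card τ *
      ∑ t, (∑ i, ∑ j, f t i j) * (∑ j, ∑ k, g t j k) * (∑ i, ∑ k, h t i k) := by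
  have hnn : ∀ t (x : I × J × K), 0 ≤ f t x.1 x.2.1 * g t x.2.1 x.2.2 * h t x.1 x.2.2 :=
    fun t x => mul_nonneg (mul_nonneg (hf _ _ _) (hg _ _ _)) (hh _ _ _)
  have h1 : (S.card : ℝ) ≤ ∑ x ∈ S, ∑ t, √(f t x.1 x.2.1 * g t x.2.1 x.2.2 * h t x.1 x.2.2) := by
    rw [Finset.cast_card]
    exact Finset.sum_le_sum fun x hx => one_le_sum_sqrt _ _ (fun t => hnn t x) (hS x hx)
  have h2 : ∑ x ∈ S, ∑ t, √(f t x.1 x.2.1 * g t x.2.1 x.2.2 * h t x.1 x.2.2) ≤
      ∑ t, ∑ i, ∑ j, ∑ k, √(f t i j * g t j k * h t i k) := by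
    rw [Finset.sum_comm]
    refine Finset.sum_le_sum fun t _ => ?_
    refine (Finset.sum_le_univ_sum_of_nonneg (fun x => Real.sqrt_nonneg _)).trans ?_
    rw [Fintype.sum_prod_type]
    simp only [Fintype.sum_prod_type, le_refl]
  have hM : ∀ t, 0 ≤ (∑ i, ∑ j, f t i j) * (∑ j, ∑ k, g t j k) * (∑ i, ∑ k, h t i k) := by
    intro t
    refine mul_nonneg (mul_nonneg ?_ ?_) ?_
    · exact Finset.sum_nonneg fun i _ => Finset.sum_nonneg fun j _ => hf _ _ _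
    · exact Finset.sum_nonneg fun i _ => Finset.sum_nonneg fun j _ => hg _ _ _
    · exact Finset.sum_nonneg fun i _ => Finset.sum_nonneg fun j _ => hh _ _ _
  have h3 : ∑ t, ∑ i, ∑ j, ∑ k, √(f t i j * g t j k * h t i k) ≤
      ∑ t, √((∑ i, ∑ j, f t i j) * (∑ j, ∑ k, g t j k) * (∑ i, ∑ k, h t i k)) :=
    Finset.sum_le_sum fun t _ => loomis _ _ _ (hf t) (hg t) (hh t)
  have h4 := h1.trans (h2.trans h3)
  have h5 : (∑ t, √((∑ i, ∑ j, f t i j) * (∑ j, ∑ k, g t j k) * (∑ i, ∑ k, h t i k))) ^ 2 ≤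
      Fintype.card τ *
        ∑ t, (∑ i, ∑ j, f t i j) * (∑ j, ∑ k, g t j k) * (∑ i, ∑ k, h t i k) := by
    have := sq_sum_le_card_mul_sum_sq (s := (Finset.univ : Finset τ))
      (f := fun t => √((∑ i, ∑ j, f t i j) * (∑ j, ∑ k, g t j k) * (∑ i, ∑ k, h t i k)))
    simpa only [Real.sq_sqrt (hM _), Finset.card_univ] using this
  exact (pow_le_pow_left₀ (Nat.cast_nonneg _) h4 2).trans h5

end Pool.Agent.Helper85.Mass
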