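import Pool.Agent.Helper85.Mass.Ineq
import Pool.Agent.Helper85.Mass.Defs

set_option autoImplicit false

/-!
# Products against mass before cancellation, for arithmetic circuits
-/

namespace Pool.Agent.Helper85.Mass

open Finset Pool.Agent.H88R3.MM Pool.Agent.H522R2 Pool.Agent.H522R2.Circuit

section Coeff

variable {F : Type*} [Field F] {X Y : Type*} [DecidableEq X] [DecidableEq Y]

/-- the evaluation `ev` at unit vectors reads off coefficients -/
theorem ev_coeff (x : X) (y : Y) (p : MvPolynomial (X ⊕ Y) F) :
    (ev (Pi.single x 1) (Pi.single y 1) p).fst.fst = p.coeff 0 ∧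
    (ev (Pi.single x 1) (Pi.single y 1) p).fst.snd = p.coeff (Finsupp.single (Sum.inl x) 1) ∧
    (ev (Pi.single x 1) (Pi.single y 1) p).snd.fst = p.coeff (Finsupp.single (Sum.inr y) 1) ∧
    (ev (Pi.single x 1) (Pi.single y 1) p).snd.snd =
      p.coeff (Finsupp.single (Sum.inl x) 1 + Finsupp.single (Sum.inr y) 1) := by
  classical
  induction p using MvPolynomial.induction_on with
  | C a =>
    have h : (algebraMap F (DualNumber (DualNumber F))) a
        = TrivSqZeroExt.inl (TrivSqZeroExt.inl a) := rfl
    refine ⟨?_, ?_, ?_, ?_⟩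
    · simp [ev, h]
    · rw [MvPolynomial.coeff_C, if_neg]
      · simp [ev, h]
      · intro h0
        have := congrArg (fun f => f (Sum.inl x)) h0
        simp at this
    · rw [MvPolynomial.coeff_C, if_neg]
      · simp [ev, h]
      · intro h0
        have := congrArg (fun f => f (Sum.inr y)) h0
        simp at this
    · rw [MvPolynomial.coeff_C, if_neg]
      · simp [ev, h]
      · intro h0
        have := congrArg (fun f => f (Sum.inr y)) h0
        simp at this
  | add p q hp hq =>
    obtain ⟨h1, h2, h3, h4⟩ := hp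
    obtain ⟨g1, g2, g3, g4⟩ := hq
    simp [h1, h2, h3, h4, g1, g2, g3, g4]
  | mul_X p s hp =>
    obtain ⟨h1, h2, h3, h4⟩ := hp
    simp only [map_mul, MvPolynomial.coeff_mul_X']
    rcases s with z | z
    · have hX : ev (Pi.single x 1) (Pi.single y 1) (MvPolynomial.X (Sum.inl z) :
          MvPolynomial (X ⊕ Y) F) =
          TrivSqZeroExt.inl (TrivSqZeroExt.inr ((Pi.single x 1 : X → F) z)) := by
        simp [ev]
      rw [hX]
      by_cases hz : z = x
      · subst hz
        simp [h1, h3]
      · simp [hz]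
    · have hX : ev (Pi.single x 1) (Pi.single y 1) (MvPolynomial.X (Sum.inr z) :
          MvPolynomial (X ⊕ Y) F) =
          TrivSqZeroExt.inr (TrivSqZeroExt.inl ((Pi.single y 1 : Y → F) z)) := by
        simp [ev]
      rw [hX]
      by_cases hz : z = y
      · subst hz
        simp [h1, h2]
      · simp [hz]

theorem jQ_coeff (C : Circuit F (X ⊕ Y)) (k : Fin C.nodes) (x : X) (y : Y) :
    jQ C (Pi.single x 1) (Pi.single y 1) k =
      (C.poly k).coeff (Finsupp.single (Sum.inl x) 1 + Finsupp.single (Sum.inr y) 1) := by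
  rw [← (ev_poly C (Pi.single x 1) (Pi.single y 1) k).2.2.2, (ev_coeff x y (C.poly k)).2.2.2]

end Coeff

section Join

variable {F : Type*} [Field F] {X Y : Type*}

/-- the bilinear terms which arise at a multiplication gate -/
noncomputable def joinAt (C : Circuit F (X ⊕ Y)) (a : X → F) (b : Y → F) (k : Fin C.nodes) : F :=
  match C.gate k with
  | .mul i j => jA C (C.up k i) a * jB C (C.up k j) b + jA C (C.up k j) a * jB C (C.up k i) b
  | _ => 0

/-- The bilinear part of a node is the sum of the bilinear terms arising at the gates, weighted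
by the transfer coefficients. -/
theorem jQ_eq_sum (C : Circuit F (X ⊕ Y)) (a : X → F) (b : Y → F) (k : Fin C.nodes) :
    jQ C a b k = ∑ t, transfer C t k * joinAt C a b t := by
  obtain ⟨k, hk⟩ := k
  induction k using Nat.strong_induction_on with
  | _ k ih =>
    rw [jQ]
    simp only [transfer.eq_1 C _ ⟨k, hk⟩, add_mul, Finset.sum_add_distrib, ite_mul, one_mul,
      zero_mul, Finset.sum_ite_eq, Finset.mem_univ, if_true]
    cases h : C.gate ⟨k, hk⟩ with
    | var y => simp [joinAt, h]
    | const c => simp [joinAt, h]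
    | add i j =>
      have h1 := ih i i.2 (i.2.trans hk)
      have h2 := ih j j.2 (j.2.trans hk)
      simp only [joinAt, h, zero_add, add_mul, Finset.sum_add_distrib]
      rw [show C.up ⟨k, hk⟩ i = ⟨i, i.2.trans hk⟩ from rfl,
        show C.up ⟨k, hk⟩ j = ⟨j, j.2.trans hk⟩ from rfl, h1, h2]
      rfl
    | mul i j =>
      have h1 := ih i i.2 (i.2.trans hk)
      have h2 := ih j j.2 (j.2.trans hk)
      have h3 : joinAt C a b ⟨k, hk⟩ = jA C (C.up ⟨k, hk⟩ i) a * jB C (C.up ⟨k, hk⟩ j) b +
          jA C (C.up ⟨k, hk⟩ j) a * jB C (C.up ⟨k, hk⟩ i) b := by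
        simp only [joinAt, h]
      simp only [add_mul, Finset.sum_add_distrib, mul_assoc, ← Finset.mul_sum]
      rw [h3]
      rw [show C.up ⟨k, hk⟩ i = ⟨i, i.2.trans hk⟩ from rfl,
        show C.up ⟨k, hk⟩ j = ⟨j, j.2.trans hk⟩ from rfl, h1, h2, ← jc_eq, ← jc_eq]
      ring

end Join

section Dom

variable {F : Type*} [Field F] {X Y : Type*} [DecidableEq X] [DecidableEq Y]
  (v : AbsoluteValue F ℝ)

omit [DecidableEq X] [DecidableEq Y] in
theorem jc_dom (C : Circuit F (X ⊕ Y)) (k : Fin C.nodes) :
    v (jc C k) ≤ jc (absolute v C) k := by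
  obtain ⟨k, hk⟩ := k
  induction k using Nat.strong_induction_on with
  | _ k ih =>
    rw [jc, jc]
    cases h : C.gate ⟨k, hk⟩ with
    | var y => simp [h]
    | const c => simp [h]
    | add i j =>
      have h1 := ih i i.2 (i.2.trans hk)
      have h2 := ih j j.2 (j.2.trans hk)
      simp only [h]
      exact (v.add_le _ _).trans (add_le_add h1 h2)
    | mul i j =>
      have h1 := ih i i.2 (i.2.trans hk)
      have h2 := ih j j.2 (j.2.trans hk)
      simp only [h, map_mul]
      exact mul_le_mul h1 h2 (v.nonneg _) ((v.nonneg _).trans h1)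

omit [DecidableEq X] [DecidableEq Y] in
theorem jc_nonneg (C : Circuit F (X ⊕ Y)) (k : Fin C.nodes) : 0 ≤ jc (absolute v C) k :=
  (v.nonneg _).trans (jc_dom v C k)

omit [DecidableEq Y] in
theorem jA_dom (C : Circuit F (X ⊕ Y)) (k : Fin C.nodes) (x : X) :
    v (jA C k (Pi.single x 1)) ≤ jA (absolute v C) k (Pi.single x 1) := by
  obtain ⟨k, hk⟩ := k
  induction k using Nat.strong_induction_on with
  | _ k ih =>
    rw [jA, jA]
    cases h : C.gate ⟨k, hk⟩ with
    | var y =>
      rcases y with y | y
      · simp only [h, LinearMap.proj_apply, Pi.single_apply]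
        split_ifs <;> simp
      · simp [h]
    | const c => simp [h]
    | add i j =>
      have h1 := ih i i.2 (i.2.trans hk)
      have h2 := ih j j.2 (j.2.trans hk)
      simp only [h]
      exact (v.add_le _ _).trans (add_le_add h1 h2)
    | mul i j =>
      have h1 := ih i i.2 (i.2.trans hk)
      have h2 := ih j j.2 (j.2.trans hk)
      simp only [h, LinearMap.add_apply, LinearMap.smul_apply, smul_eq_mul]
      refine (v.add_le _ _).trans ?_
      rw [map_mul, map_mul]
      exact add_le_add
        (mul_le_mul (jc_dom v C _) h2 (v.nonneg _) (jc_nonneg v C _))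
        (mul_le_mul (jc_dom v C _) h1 (v.nonneg _) (jc_nonneg v C _))

omit [DecidableEq X] in
theorem jB_dom (C : Circuit F (X ⊕ Y)) (k : Fin C.nodes) (y : Y) :
    v (jB C k (Pi.single y 1)) ≤ jB (absolute v C) k (Pi.single y 1) := by
  obtain ⟨k, hk⟩ := k
  induction k using Nat.strong_induction_on with
  | _ k ih =>
    rw [jB, jB]
    cases h : C.gate ⟨k, hk⟩ with
    | var z =>
      rcases z with z | z
      · simp [h]
      · simp only [h, LinearMap.proj_apply, Pi.single_apply]
        split_ifs <;> simp
    | const c => simp [h]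
    | add i j =>
      have h1 := ih i i.2 (i.2.trans hk)
      have h2 := ih j j.2 (j.2.trans hk)
      simp only [h]
      exact (v.add_le _ _).trans (add_le_add h1 h2)
    | mul i j =>
      have h1 := ih i i.2 (i.2.trans hk)
      have h2 := ih j j.2 (j.2.trans hk)
      simp only [h, LinearMap.add_apply, LinearMap.smul_apply, smul_eq_mul]
      refine (v.add_le _ _).trans ?_
      rw [map_mul, map_mul]
      exact add_le_add
        (mul_le_mul (jc_dom v C _) h2 (v.nonneg _) (jc_nonneg v C _))
        (mul_le_mul (jc_dom v C _) h1 (v.nonneg _) (jc_nonneg v C _))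

omit [DecidableEq X] [DecidableEq Y] in
theorem transfer_dom (C : Circuit F (X ⊕ Y)) (t k : Fin C.nodes) :
    v (transfer C t k) ≤ transfer (absolute v C) t k := by
  obtain ⟨k, hk⟩ := k
  induction k using Nat.strong_induction_on with
  | _ k ih =>
    rw [transfer, transfer]
    refine (v.add_le _ _).trans (add_le_add ?_ ?_)
    · split_ifs <;> simp
    cases h : C.gate ⟨k, hk⟩ with
    | var y => simp [h]
    | const c => simp [h]
    | add i j =>
      have h1 := ih i i.2 (i.2.trans hk)
      have h2 := ih j j.2 (j.2.trans hk)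
      simp only [h]
      exact (v.add_le _ _).trans (add_le_add h1 h2)
    | mul i j =>
      have h1 := ih i i.2 (i.2.trans hk)
      have h2 := ih j j.2 (j.2.trans hk)
      simp only [h, ← jc_eq]
      refine (v.add_le _ _).trans ?_
      rw [map_mul, map_mul]
      exact add_le_add
        (mul_le_mul (jc_dom v C _) h2 (v.nonneg _) (jc_nonneg v C _))
        (mul_le_mul (jc_dom v C _) h1 (v.nonneg _) (jc_nonneg v C _))

omit [DecidableEq X] [DecidableEq Y] in
theorem transfer_nonneg (C : Circuit F (X ⊕ Y)) (t k : Fin C.nodes) :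
    0 ≤ transfer (absolute v C) t k :=
  (v.nonneg _).trans (transfer_dom v C t k)

theorem joinAt_dom (C : Circuit F (X ⊕ Y)) (t : Fin C.nodes) (x : X) (y : Y) :
    (∀ i j, C.gate t = .mul i j →
      v (jA C (C.up t i) (Pi.single x 1)) * v (jB C (C.up t j) (Pi.single y 1)) +
      v (jA C (C.up t j) (Pi.single x 1)) * v (jB C (C.up t i) (Pi.single y 1)) ≤
      joinAt (absolute v C) (Pi.single x 1) (Pi.single y 1) t) ∧
    0 ≤ joinAt (absolute v C) (Pi.single x 1) (Pi.single y 1) t := by
  have key : ∀ i j, C.gate t = .mul i j →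
      v (jA C (C.up t i) (Pi.single x 1)) * v (jB C (C.up t j) (Pi.single y 1)) +
      v (jA C (C.up t j) (Pi.single x 1)) * v (jB C (C.up t i) (Pi.single y 1)) ≤
      joinAt (absolute v C) (Pi.single x 1) (Pi.single y 1) t := by
    intro i j h
    have e : joinAt (absolute v C) (Pi.single x 1) (Pi.single y 1) t =
        jA (absolute v C) (C.up t i) (Pi.single x 1) *
          jB (absolute v C) (C.up t j) (Pi.single y 1) +
        jA (absolute v C) (C.up t j) (Pi.single x 1) *
          jB (absolute v C) (C.up t i) (Pi.single y 1) := by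
      simp only [joinAt, h]
      rfl
    rw [e]
    exact add_le_add
      (mul_le_mul (jA_dom v C _ x) (jB_dom v C _ y) (v.nonneg _)
        ((v.nonneg _).trans (jA_dom v C _ x)))
      (mul_le_mul (jA_dom v C _ x) (jB_dom v C _ y) (v.nonneg _)
        ((v.nonneg _).trans (jA_dom v C _ x)))
  refine ⟨key, ?_⟩
  cases h : C.gate t with
  | var y => simp [joinAt, h]
  | const c => simp [joinAt, h]
  | add i j => simp [joinAt, h]
  | mul i j =>
    exact (add_nonneg (mul_nonneg (v.nonneg _) (v.nonneg _))
      (mul_nonneg (v.nonneg _) (v.nonneg _))).trans (key i j h)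

end Dom

section Final

variable {F : Type*} [Field F] {m : ℕ} (v : AbsoluteValue F ℝ)

theorem l1_nonneg (M : Matrix (Fin m) (Fin m) F) : 0 ≤ l1 v M :=
  Finset.sum_nonneg fun _ _ => Finset.sum_nonneg fun _ _ => v.nonneg _

theorem linA_apply (C : Circuit F (Vars m)) (k : Fin C.nodes) (x : Fin m × Fin m) :
    linA (C.poly k) x.1 x.2 = jA C k (Pi.single x 1) := by
  rw [jA_eq]
  rfl

theorem linB_apply (C : Circuit F (Vars m)) (k : Fin C.nodes) (x : Fin m × Fin m) :
    linB (C.poly k) x.1 x.2 = jB C k (Pi.single x 1) := by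
  rw [jB_eq]
  rfl

theorem l1_linA (C : Circuit F (Vars m)) (k : Fin C.nodes) :
    l1 v (linA (C.poly k)) = ∑ x, v (jA C k (Pi.single x 1)) := by
  unfold l1
  rw [Fintype.sum_prod_type]
  exact Finset.sum_congr rfl fun i _ => Finset.sum_congr rfl fun j _ => by
    rw [linA_apply C k (i, j)]

theorem l1_linB (C : Circuit F (Vars m)) (k : Fin C.nodes) :
    l1 v (linB (C.poly k)) = ∑ x, v (jB C k (Pi.single x 1)) := by
  unfold l1
  rw [Fintype.sum_prod_type]
  exact Finset.sum_congr rfl fun i _ => Finset.sum_congr rfl fun j _ => by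
    rw [linB_apply C k (i, j)]

/-- the mass of a node is the sum of the weights of the bilinear terms arising at the gates -/
theorem mass_eq (C : Circuit F (Vars m)) (k : Fin C.nodes) :
    mass v C k = ∑ t, transfer (absolute v C) t k *
      ∑ x, ∑ y, joinAt (absolute v C) (Pi.single x 1) (Pi.single y 1) t := by
  unfold mass
  have h : ∀ x y, ((absolute v C).poly k).coeff
      (Finsupp.single (Sum.inl x) 1 + Finsupp.single (Sum.inr y) 1) =
      ∑ t, transfer (absolute v C) t k *
        joinAt (absolute v C) (Pi.single x 1) (Pi.single y 1) t := by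
    intro x y
    rw [← jQ_coeff (absolute v C) k x y, jQ_eq_sum]
  simp only [h, Finset.mul_sum]
  calc ∑ x, ∑ y, ∑ t, transfer (absolute v C) t k *
        joinAt (absolute v C) (Pi.single x 1) (Pi.single y 1) t
      = ∑ x, ∑ t, ∑ y, transfer (absolute v C) t k *
        joinAt (absolute v C) (Pi.single x 1) (Pi.single y 1) t :=
        Finset.sum_congr rfl fun x _ => Finset.sum_comm
    _ = _ := Finset.sum_comm

/-- the weight of a product is at most the weight of the terms which arise there before
cancellation -/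
theorem product_le (C : Circuit F (Vars m)) (t : Fin C.nodes) (ht : C.IsNonscalar t) :
    l1 v (linA (C.poly (inp C t).1)) * l1 v (linB (C.poly (inp C t).2)) +
      l1 v (linA (C.poly (inp C t).2)) * l1 v (linB (C.poly (inp C t).1)) ≤
    ∑ x, ∑ y, joinAt (absolute v C) (Pi.single x 1) (Pi.single y 1) t := by
  obtain ⟨i, j, h, _, _⟩ := ht
  have hin : inp C t = (C.up t i, C.up t j) := by
    unfold inp
    rw [h]
  rw [hin]
  simp only [l1_linA, l1_linB, Finset.sum_mul_sum, ← Finset.sum_add_distrib]
  exact Finset.sum_le_sum fun x _ => Finset.sum_le_sum fun y _ =>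
    (joinAt_dom v C t x y).1 i j h

theorem productMass_le (C : Circuit F (Vars m)) (o : Fin m → Fin m → Fin C.nodes) :
    productMass v C o ≤ ∑ i, ∑ k, mass v C (o i k) := by
  classical
  have hJ : ∀ t, 0 ≤ ∑ x, ∑ y, joinAt (absolute v C) (Pi.single x 1) (Pi.single y 1) t :=
    fun t => Finset.sum_nonneg fun x _ => Finset.sum_nonneg fun y _ => (joinAt_dom v C t x y).2
  have hT : ∀ t, l1 v (Matrix.of fun i k => transfer C t (o i k)) ≤
      ∑ i, ∑ k, transfer (absolute v C) t (o i k) := fun t =>
    Finset.sum_le_sum fun i _ => Finset.sum_le_sum fun k _ => transfer_dom v C t (o i k)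
  have hT0 : ∀ t, 0 ≤ ∑ i, ∑ k, transfer (absolute v C) t (o i k) := fun t =>
    Finset.sum_nonneg fun i _ => Finset.sum_nonneg fun k _ => transfer_nonneg v C t (o i k)
  have hR : ∑ i, ∑ k, mass v C (o i k) = ∑ t,
      (∑ x, ∑ y, joinAt (absolute v C) (Pi.single x 1) (Pi.single y 1) t) *
      ∑ i, ∑ k, transfer (absolute v C) t (o i k) := by
    simp only [mass_eq]
    calc ∑ i, ∑ k, ∑ t, transfer (absolute v C) t (o i k) *
          ∑ x, ∑ y, joinAt (absolute v C) (Pi.single x 1) (Pi.single y 1) t
        = ∑ i, ∑ t, ∑ k, transfer (absolute v C) t (o i k) *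
          ∑ x, ∑ y, joinAt (absolute v C) (Pi.single x 1) (Pi.single y 1) t :=
          Finset.sum_congr rfl fun i _ => Finset.sum_comm
      _ = ∑ t, ∑ i, ∑ k, transfer (absolute v C) t (o i k) *
          ∑ x, ∑ y, joinAt (absolute v C) (Pi.single x 1) (Pi.single y 1) t := Finset.sum_comm
      _ = _ := by
          refine Finset.sum_congr rfl fun t _ => ?_
          simp only [← Finset.sum_mul]
          rw [mul_comm]
  rw [hR]
  unfold productMass
  calc ∑ t : {t : Fin C.nodes // C.IsNonscalar t},
        (l1 v (linA (C.poly (inp C t.1).1)) * l1 v (linB (C.poly (inp C t.1).2)) +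
          l1 v (linA (C.poly (inp C t.1).2)) * l1 v (linB (C.poly (inp C t.1).1))) *
        l1 v (Matrix.of fun i k => transfer C t.1 (o i k))
      ≤ ∑ t : {t : Fin C.nodes // C.IsNonscalar t},
        (∑ x, ∑ y, joinAt (absolute v C) (Pi.single x 1) (Pi.single y 1) t.1) *
        ∑ i, ∑ k, transfer (absolute v C) t.1 (o i k) :=
        Finset.sum_le_sum fun t _ =>
          mul_le_mul (product_le v C t.1 t.2) (hT t.1) (l1_nonneg v _) (hJ t.1)
    _ = ∑ t ∈ Finset.univ.filter (fun t => C.IsNonscalar t),
        (∑ x, ∑ y, joinAt (absolute v C) (Pi.single x 1) (Pi.single y 1) t) *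
        ∑ i, ∑ k, transfer (absolute v C) t (o i k) := by
        rw [Finset.sum_subtype (Finset.univ.filter (fun t => C.IsNonscalar t))
          (p := fun t => C.IsNonscalar t) (by simp)]
    _ ≤ _ := Finset.sum_le_sum_of_subset_of_nonneg (Finset.filter_subset _ _)
        fun t _ _ => mul_nonneg (hJ t) (hT0 t)

/-- the join terms vanish at scalar multiplications -/
theorem joinAt_eq (C : Circuit F (Vars m)) (x y : Fin m × Fin m) (t : Fin C.nodes) :
    (C.IsNonscalar t → joinAt C (Pi.single x 1) (Pi.single y 1) t =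
      linA (C.poly (inp C t).1) x.1 x.2 * linB (C.poly (inp C t).2) y.1 y.2 +
      linA (C.poly (inp C t).2) x.1 x.2 * linB (C.poly (inp C t).1) y.1 y.2) ∧
    (¬ C.IsNonscalar t → joinAt C (Pi.single x 1) (Pi.single y 1) t = 0) := by
  constructor
  · rintro ⟨i, j, h, _, _⟩
    have hin : inp C t = (C.up t i, C.up t j) := by
      unfold inp
      rw [h]
    simp only [joinAt, h, hin, linA_apply, linB_apply]
  · intro hns
    cases h : C.gate t with
    | var y => simp [joinAt, h]
    | const c => simp [joinAt, h]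
    | add i j => simp [joinAt, h]
    | mul i j =>
      simp only [joinAt, h]
      by_cases h1 : ∀ c : F, C.poly (C.up t i) ≠ MvPolynomial.C c
      · have h2 : ¬ ∀ c : F, C.poly (C.up t j) ≠ MvPolynomial.C c :=
          fun h2 => hns ⟨i, j, h, h1, h2⟩
        simp only [not_forall, not_not] at h2
        obtain ⟨c, hc⟩ := h2
        rw [jA_eq_zero_of_const C _ c hc, jB_eq_zero_of_const C _ c hc]
        ring
      · push_neg at h1
        obtain ⟨c, hc⟩ := h1
        rw [jA_eq_zero_of_const C _ c hc, jB_eq_zero_of_const C _ c hc]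
        ring

open Classical in
theorem coeff_eq (C : Circuit F (Vars m)) (k : Fin C.nodes) (x y : Fin m × Fin m) :
    (C.poly k).coeff (Finsupp.single (Sum.inl x) 1 + Finsupp.single (Sum.inr y) 1) =
      ∑ t : {t : Fin C.nodes // C.IsNonscalar t}, transfer C t.1 k *
        (linA (C.poly (inp C t.1).1) x.1 x.2 * linB (C.poly (inp C t.1).2) y.1 y.2 +
          linA (C.poly (inp C t.1).2) x.1 x.2 * linB (C.poly (inp C t.1).1) y.1 y.2) := by
  rw [← jQ_coeff, jQ_eq_sum]
  rw [← Finset.sum_subset (Finset.filter_subset (fun t => C.IsNonscalar t) Finset.univ)]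
  · rw [Finset.sum_subtype (Finset.univ.filter (fun t => C.IsNonscalar t))
      (p := fun t => C.IsNonscalar t) (by simp)]
    exact Finset.sum_congr rfl fun t _ => by rw [(joinAt_eq C x y t.1).1 t.2]
  · intro t _ ht
    rw [(joinAt_eq C x y t).2 (by simpa using ht), mul_zero]

/-- **Covering bound for circuits.** -/
theorem card_sq_le (C : Circuit F (Vars m)) (o : Fin m → Fin m → Fin C.nodes)
    (S : Finset (Fin m × Fin m × Fin m))
    (hS : ∀ x ∈ S, 1 ≤ v ((C.poly (o x.1 x.2.2)).coeff
      (Finsupp.single (Sum.inl (x.1, x.2.1)) 1 + Finsupp.single (Sum.inr (x.2.1, x.2.2)) 1))) :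
    (S.card : ℝ) ^ 2 ≤ 2 * C.nonscalarCount * productMass v C o := by
  classical
  let N := {t : Fin C.nodes // C.IsNonscalar t}
  let f : N × Bool → Fin m → Fin m → ℝ := fun t i j =>
    v (linA (C.poly (if t.2 then (inp C t.1.1).1 else (inp C t.1.1).2)) i j)
  let g : N × Bool → Fin m → Fin m → ℝ := fun t j k =>
    v (linB (C.poly (if t.2 then (inp C t.1.1).2 else (inp C t.1.1).1)) j k)
  let h : N × Bool → Fin m → Fin m → ℝ := fun t i k => v (transfer C t.1.1 (o i k))
  have hc := cover S f g h (fun _ _ _ => v.nonneg _) (fun _ _ _ => v.nonneg _)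
    (fun _ _ _ => v.nonneg _) (by
      intro x hx
      refine (hS x hx).trans ?_
      rw [coeff_eq]
      refine (v.sum_le _ _).trans ?_
      rw [Fintype.sum_prod_type]
      refine Finset.sum_le_sum fun t _ => ?_
      rw [map_mul, Fintype.sum_bool]
      simp only [f, g, h, if_true, Bool.false_eq_true, if_false]
      have := v.add_le
        (linA (C.poly (inp C t.1).1) x.1 x.2.1 * linB (C.poly (inp C t.1).2) x.2.1 x.2.2)
        (linA (C.poly (inp C t.1).2) x.1 x.2.1 * linB (C.poly (inp C t.1).1) x.2.1 x.2.2)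
      rw [map_mul, map_mul] at this
      nlinarith [v.nonneg (transfer C t.1 (o x.1 x.2.2)), this])
  have hcard : (Fintype.card (N × Bool) : ℝ) = 2 * C.nonscalarCount := by
    rw [Fintype.card_prod, Fintype.card_bool]
    have : Fintype.card N = C.nonscalarCount := by
      unfold nonscalarCount
      rw [Nat.card_eq_fintype_card]
    rw [this]
    push_cast
    ring
  rw [hcard] at hc
  refine hc.trans (le_of_eq ?_)
  congr 1
  unfold productMass
  rw [Fintype.sum_prod_type]
  refine Finset.sum_congr rfl fun t _ => ?_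
  rw [Fintype.sum_bool]
  simp only [f, g, h, if_true, Bool.false_eq_true, if_false, l1, Matrix.of_apply]
  ring

theorem productMass_nonneg (C : Circuit F (Vars m)) (o : Fin m → Fin m → Fin C.nodes) :
    0 ≤ productMass v C o :=
  Finset.sum_nonneg fun _ _ => mul_nonneg
    (add_nonneg (mul_nonneg (l1_nonneg v _) (l1_nonneg v _))
      (mul_nonneg (l1_nonneg v _) (l1_nonneg v _))) (l1_nonneg v _)

/-- coefficients of the entries of the product -/
theorem coeff_entry (i j k : Fin m) :
    (entry F m i k).coeff
      (Finsupp.single (Sum.inl (i, j)) 1 + Finsupp.single (Sum.inr (j, k)) 1) = 1 := by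
  classical
  rw [← (ev_coeff (i, j) (j, k) (entry F m i k)).2.2.2]
  simp only [entry, map_sum, map_mul]
  rw [Finset.sum_eq_single j]
  · simp [ev]
  · intro b _ hb
    have hb' : (Pi.single (i, j) 1 : Fin m × Fin m → F) (i, b) = 0 := by
      rw [Pi.single_apply, if_neg]
      intro h
      exact hb (congrArg Prod.snd h)
    simp only [ev, MvPolynomial.aeval_X, Sum.elim_inl, Sum.elim_inr, hb']
    simp
  · simp

end Final

end Pool.Agent.Helper85.Mass
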